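import Pool.Agent.Helper65.RP.Defs

/-!
# Dimensions of spaces of polynomials of bounded degree modulo an ideal
-/

set_option autoImplicit false

namespace Pool.Agent.Helper63.RP

open MvPolynomial Filter Topology
open Pool.Agent.Helper65.RP

section
variable {K : Type} [Field K] {N : ℕ}

theorem rho_eq_range (I : Ideal (MvPolynomial (Fin N) K)) (D : ℕ) :
    rho I D = Module.finrank K (LinearMap.range ((Ideal.Quotient.mkₐ K I).toLinearMap.domRestrict
      (restrictTotalDegree (Fin N) K D))) := by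
  rw [LinearMap.range_domRestrict]
  rfl

theorem rho_eq_of_ker {W : Type} [AddCommGroup W] [Module K W]
    (I : Ideal (MvPolynomial (Fin N) K)) (D : ℕ) (ψ : MvPolynomial (Fin N) K →ₗ[K] W)
    (h : ∀ G : MvPolynomial (Fin N) K, G.totalDegree ≤ D → (G ∈ I ↔ ψ G = 0)) :
    rho I D =
      Module.finrank K (LinearMap.range (ψ.domRestrict (restrictTotalDegree (Fin N) K D))) := by
  rw [rho_eq_range]
  have hker : LinearMap.ker ((Ideal.Quotient.mkₐ K I).toLinearMap.domRestrict
      (restrictTotalDegree (Fin N) K D)) =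
      LinearMap.ker (ψ.domRestrict (restrictTotalDegree (Fin N) K D)) := by
    ext ⟨G, hG⟩
    rw [LinearMap.mem_ker, LinearMap.mem_ker, LinearMap.domRestrict_apply,
      LinearMap.domRestrict_apply]
    rw [mem_restrictTotalDegree] at hG
    rw [← h G hG]
    exact Ideal.Quotient.eq_zero_iff_mem
  rw [← (LinearMap.quotKerEquivRange _).finrank_eq, ← (LinearMap.quotKerEquivRange _).finrank_eq,
    hker]

theorem rho_le_of_ker {W : Type} [AddCommGroup W] [Module K W] [Module.Finite K W]
    (I : Ideal (MvPolynomial (Fin N) K)) (D : ℕ) (ψ : MvPolynomial (Fin N) K →ₗ[K] W)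
    (h : ∀ G : MvPolynomial (Fin N) K, G.totalDegree ≤ D → (G ∈ I ↔ ψ G = 0)) :
    rho I D ≤ Module.finrank K W := by
  rw [rho_eq_of_ker I D ψ h]
  exact Submodule.finrank_le _

theorem rho_congr (I J : Ideal (MvPolynomial (Fin N) K)) (D : ℕ)
    (h : ∀ G : MvPolynomial (Fin N) K, G.totalDegree ≤ D → (G ∈ I ↔ G ∈ J)) :
    rho I D = rho J D := by
  rw [rho_eq_range J]
  refine rho_eq_of_ker I D _ fun G hG => (h G hG).trans ?_
  exact Ideal.Quotient.eq_zero_iff_mem.symm

/-- Powers of one variable. -/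
theorem le_rho (P : Ideal (MvPolynomial (Fin N) K)) (i₀ : Fin N)
    (hP : ∀ p : Polynomial K, p ≠ 0 → Polynomial.aeval (X i₀ : MvPolynomial (Fin N) K) p ∉ P)
    (D : ℕ) : D + 1 ≤ rho P D := by
  classical
  set V := restrictTotalDegree (Fin N) K D with hV
  set π := (Ideal.Quotient.mkₐ K P).toLinearMap with hπ
  have hmem : ∀ k : Fin (D + 1), π (X i₀ ^ (k : ℕ)) ∈ V.map π := fun k => by
    refine Submodule.mem_map_of_mem ?_
    rw [hV, mem_restrictTotalDegree]
    refine (totalDegree_pow _ _).trans ?_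
    rw [totalDegree_X, mul_one]
    exact Nat.lt_succ_iff.1 k.2
  have hli : LinearIndependent K fun k : Fin (D + 1) => π (X i₀ ^ (k : ℕ)) := by
    rw [Fintype.linearIndependent_iff]
    intro c hc
    have h1 : π (Polynomial.aeval (X i₀ : MvPolynomial (Fin N) K)
        (∑ k : Fin (D + 1), c k • (Polynomial.X : Polynomial K) ^ (k : ℕ))) = 0 := by
      rw [map_sum, map_sum, ← hc]
      refine Finset.sum_congr rfl fun k _ => ?_
      rw [map_smul, map_smul, map_pow, Polynomial.aeval_X]
    have h2 : Polynomial.aeval (X i₀ : MvPolynomial (Fin N) K)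
        (∑ k : Fin (D + 1), c k • (Polynomial.X : Polynomial K) ^ (k : ℕ)) ∈ P :=
      Ideal.Quotient.eq_zero_iff_mem.1 h1
    have h3 : (∑ k : Fin (D + 1), c k • (Polynomial.X : Polynomial K) ^ (k : ℕ)) = 0 := by
      by_contra h4
      exact hP _ h4 h2
    intro k
    have h4 := congrArg (fun p => Polynomial.coeff p (k : ℕ)) h3
    simp only [Polynomial.finsetSum_coeff, Polynomial.coeff_smul, Polynomial.coeff_X_pow,
      Polynomial.coeff_zero, smul_eq_mul] at h4
    rw [Finset.sum_eq_single k] at h4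
    · simpa using h4
    · intro b _ hb
      rw [if_neg, mul_zero]
      intro h5
      exact hb (Fin.ext h5.symm)
    · simp
  have hli2 : LinearIndependent K fun k : Fin (D + 1) =>
      (⟨π (X i₀ ^ (k : ℕ)), hmem k⟩ : V.map π) :=
    LinearIndependent.of_comp (V.map π).subtype hli
  have := hli2.fintype_card_le_finrank
  rw [Fintype.card_fin] at this
  exact this

/-- A polynomial of a larger ideal makes the dimensions grow. -/
theorem rho_add_le (I P : Ideal (MvPolynomial (Fin N) K)) (hIP : I ≤ P)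
    (F : MvPolynomial (Fin N) K) (hF : F ∈ P) (hmul : ∀ G, F * G ∈ I → G ∈ I) (D : ℕ) :
    rho P (D + F.totalDegree) + rho I D ≤ rho I (D + F.totalDegree) := by
  classical
  set e := F.totalDegree with he
  set V := restrictTotalDegree (Fin N) K D with hV
  set V' := restrictTotalDegree (Fin N) K (D + e) with hV'
  set πI := (Ideal.Quotient.mkₐ K I).toLinearMap with hπI
  set πP := (Ideal.Quotient.mkₐ K P).toLinearMap with hπP
  set A := V'.map πI with hA
  set q : (MvPolynomial (Fin N) K ⧸ I) →ₗ[K] (MvPolynomial (Fin N) K ⧸ P) :=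
    (Ideal.Quotient.factorₐ K hIP).toLinearMap with hq
  have hqπ : ∀ G, q (πI G) = πP G := fun G => rfl
  set f : A →ₗ[K] (MvPolynomial (Fin N) K ⧸ P) := q.domRestrict A with hf
  have hrange : LinearMap.range f = V'.map πP := by
    rw [hf, LinearMap.range_domRestrict, hA, ← Submodule.map_comp]
    congr 1
  have h1 := LinearMap.finrank_range_add_finrank_ker f
  rw [hrange] at h1
  have hj1 : ∀ b : V.map πI, (LinearMap.mulLeft K (πI F)).domRestrict (V.map πI) b ∈ A := by
    rintro ⟨b, G, hG, rfl⟩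
    have : (LinearMap.mulLeft K (πI F)).domRestrict (V.map πI) ⟨πI G, G, hG, rfl⟩ =
        πI (F * G) := rfl
    rw [this]
    refine Submodule.mem_map_of_mem ?_
    rw [hV', mem_restrictTotalDegree]
    have hG' : G.totalDegree ≤ D := (mem_restrictTotalDegree _ _ _).1 hG
    refine (totalDegree_mul _ _).trans ?_
    omega
  set j1 : V.map πI →ₗ[K] A :=
    LinearMap.codRestrict A ((LinearMap.mulLeft K (πI F)).domRestrict (V.map πI)) hj1 with hj1d
  have hj2 : ∀ b : V.map πI, j1 b ∈ LinearMap.ker f := by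
    rintro ⟨b, G, hG, rfl⟩
    rw [LinearMap.mem_ker]
    have : f (j1 ⟨πI G, G, hG, rfl⟩) = πP (F * G) := rfl
    rw [this]
    exact Ideal.Quotient.eq_zero_iff_mem.2 (P.mul_mem_right _ hF)
  set j2 : V.map πI →ₗ[K] LinearMap.ker f := LinearMap.codRestrict (LinearMap.ker f) j1 hj2
  have hinj : Function.Injective j2 := by
    refine (injective_iff_map_eq_zero j2).2 ?_
    rintro ⟨b, G, hG, rfl⟩ hb
    have h2 : πI (F * G) = 0 := Subtype.ext_iff.1 (Subtype.ext_iff.1 hb)
    have h3 : F * G ∈ I := Ideal.Quotient.eq_zero_iff_mem.1 h2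
    have h4 : πI G = 0 := Ideal.Quotient.eq_zero_iff_mem.2 (hmul G h3)
    exact Subtype.ext h4
  have h2 := LinearMap.finrank_le_finrank_of_injective hinj
  have e1 : rho P (D + e) = Module.finrank K (V'.map πP) := rfl
  have e2 : rho I (D + e) = Module.finrank K A := rfl
  have e3 : rho I D = Module.finrank K (V.map πI) := rfl
  rw [e1, e2, e3]
  omega

/-- Quadratic growth contradicts linear growth. -/
theorem no_growth (ρ : ℕ → ℕ) {e : ℕ} (he : 1 ≤ e) (h : ∀ D, D + e + 1 + ρ D ≤ ρ (D + e))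
    (c B : ℝ) (hle : ∀ D, (ρ D : ℝ) ≤ c * (D * B + 1)) : False := by
  have h1 : ∀ k : ℕ, (k : ℝ) ^ 2 / 2 ≤ ρ (k * e) := by
    intro k
    induction k with
    | zero => simp
    | succ k ih =>
      have h2 := h (k * e)
      have h3 : k ≤ k * e := Nat.le_mul_of_pos_right _ he
      have h4 : k + 1 + ρ (k * e) ≤ ρ ((k + 1) * e) := by
        have : (k + 1) * e = k * e + e := by ring
        rw [this]
        omega
      have h5 : ((k : ℝ) + 1 + ρ (k * e)) ≤ ρ ((k + 1) * e) := by exact_mod_cast h4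
      push_cast
      nlinarith
  obtain ⟨k, hk⟩ := exists_nat_gt (2 * (|c| * (e * |B| + 1)) + 1)
  have hk1 : (1 : ℝ) ≤ k := by
    have : 0 ≤ |c| * (e * |B| + 1) := by positivity
    linarith
  have h2 := (h1 k).trans (hle (k * e))
  have h3 : c * (((k * e : ℕ) : ℝ) * B + 1) ≤ |c| * (e * |B| + 1) * k := by
    refine (le_abs_self _).trans ?_
    rw [abs_mul]
    have h4 : |((k * e : ℕ) : ℝ) * B + 1| ≤ (e * |B| + 1) * k := by
      refine (abs_add_le _ _).trans ?_
      rw [abs_mul, abs_one, Nat.abs_cast]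
      push_cast
      nlinarith
    calc |c| * |((k * e : ℕ) : ℝ) * B + 1| ≤ |c| * ((e * |B| + 1) * k) :=
          mul_le_mul_of_nonneg_left h4 (abs_nonneg _)
      _ = _ := by ring
  have h5 : (k : ℝ) ^ 2 / 2 ≤ |c| * (e * |B| + 1) * k := h2.trans h3
  have h6 : (k : ℝ) / 2 ≤ |c| * (e * |B| + 1) := by
    have : (k : ℝ) * (k / 2) ≤ k * (|c| * (e * |B| + 1)) := by nlinarith
    exact le_of_mul_le_mul_left this (by linarith)
  linarith

end

end Pool.Agent.Helper63.RP
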