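import Pool.Agent.Helper65.RP.Defs

/-!
# The Liouville inequality for sequences
-/

set_option autoImplicit false

namespace Pool.Agent.Helper63.RP

open MvPolynomial Filter Topology
open Pool.Agent.Helper65.RP

section
variable {K Ω : Type} [Field K] [NormedField Ω] [Algebra K Ω] {Λ : Type} [Fintype Λ] {N : ℕ}

/-- A common denominator. -/
theorem exists_den (Z : PD K Ω Λ) (T : Finset K) : ∃ c ∈ Z.O, c ≠ 0 ∧ ∀ x ∈ T, c * x ∈ Z.O := by
  classical
  induction T using Finset.induction_on with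
  | empty => exact ⟨1, Z.O.one_mem, one_ne_zero, by simp⟩
  | insert a T ha ih =>
    obtain ⟨c, hc, hc0, hcT⟩ := ih
    obtain ⟨y, hy, hy0, hxy⟩ := Z.frac a
    refine ⟨c * y, Z.O.mul_mem hc hy, mul_ne_zero hc0 hy0, ?_⟩
    intro x hx
    rcases Finset.mem_insert.1 hx with h | h
    · subst h
      have : c * y * x = c * (x * y) := by ring
      rw [this]
      exact Z.O.mul_mem hc hxy
    · have : c * y * x = y * (c * x) := by ring
      rw [this]
      exact Z.O.mul_mem hy (hcT x h)

/-- A bound for the absolute value of a polynomial at a point. -/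
theorem abv_eval_le (v : AbsoluteValue K ℝ) (G : MvPolynomial (Fin N) K) {D : ℕ}
    (hD : G.totalDegree ≤ D) (x : Fin N → K) {E : ℝ} (hE : 1 ≤ E) (hx : ∀ i, v (x i) ≤ E) :
    v (eval x G) ≤ (∑ m ∈ G.support, v (coeff m G)) * E ^ D := by
  rw [eval_eq, Finset.sum_mul]
  refine (v.sum_le _ _).trans (Finset.sum_le_sum fun m hm => ?_)
  rw [map_mul]
  refine mul_le_mul_of_nonneg_left ?_ (v.nonneg _)
  rw [map_prod]
  calc ∏ i ∈ m.support, v (x i ^ m i) ≤ ∏ i ∈ m.support, E ^ m i := by
        refine Finset.prod_le_prod (fun i _ => v.nonneg _) fun i _ => ?_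
        rw [map_pow]
        exact pow_le_pow_left₀ (v.nonneg _) (hx i) _
    _ = E ^ (∑ i ∈ m.support, m i) := by rw [Finset.prod_pow_eq_pow_sum]
    _ ≤ E ^ D := by
        refine pow_le_pow_right₀ hE ?_
        refine le_trans ?_ hD
        exact le_totalDegree hm

/-- (1) The Liouville inequality. -/
theorem liouville (Z : PD K Ω Λ) {g : Λ → ℝ} {𝒰 : Ultrafilter ℕ} {s : ℕ → ℝ}
    {z : ℕ → Fin N → K} (hs : Tendsto s (𝒰 : Filter ℕ) atTop) (hg : Grow Z g 𝒰 s z)
    {G : MvPolynomial (Fin N) K} {D : ℕ} (hD : G.totalDegree ≤ D) {α : ℝ}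
    (hα : D * ((∑ l, g l) / Z.n) < α)
    (hord : GeOrd 𝒰 s (fun n => algebraMap K Ω (eval (z n) G)) α) : G ∈ van 𝒰 z := by
  classical
  by_contra hG
  have hne : ∀ᶠ n in (𝒰 : Filter ℕ), eval (z n) G ≠ 0 := by
    rw [Ultrafilter.eventually_not]
    exact hG
  obtain ⟨c, hcO, hc0, hc⟩ := exists_den Z (G.support.image fun m => coeff m G)
  have hn0 : (0 : ℝ) < Z.n := by exact_mod_cast Z.hn
  -- the choice of epsilon
  set δ0 : ℝ := Z.n * α - D * ∑ l, g l with hδ0
  have hδ0pos : 0 < δ0 := by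
    have h1 : (D : ℝ) * ((∑ l, g l) / Z.n) * Z.n < α * Z.n := by
      exact mul_lt_mul_of_pos_right hα hn0
    have h2 : (D : ℝ) * ((∑ l, g l) / Z.n) * Z.n = D * ∑ l, g l := by
      field_simp
    rw [hδ0]
    nlinarith
  set q0 : ℝ := Z.n + D * Fintype.card Λ with hq0
  have hq0pos : 0 < q0 := by positivity
  set ε : ℝ := δ0 / (2 * q0) with hε
  have hεpos : 0 < ε := by positivity
  have hεq : ε * q0 = δ0 / 2 := by
    rw [hε]
    field_simp
  -- constants
  set A : Λ → ℝ := fun l => Z.abv l c * ∑ m ∈ G.support, Z.abv l (coeff m G) with hA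
  have hAnn : ∀ l, 0 ≤ A l := fun l =>
    mul_nonneg ((Z.abv l).nonneg _) (Finset.sum_nonneg fun m _ => (Z.abv l).nonneg _)
  set Cst : ℝ := ‖algebraMap K Ω c‖ ^ Z.n * ∏ l, A l with hCst
  have hCnn : 0 ≤ Cst := mul_nonneg (pow_nonneg (norm_nonneg _) _) (Finset.prod_nonneg fun l _ => hAnn l)
  have hspos : ∀ᶠ n in (𝒰 : Filter ℕ), 0 < s n := hs.eventually_gt_atTop 0
  have hlim : Tendsto (fun n => Cst * Real.exp (-(δ0 / 2) * s n)) (𝒰 : Filter ℕ) (𝓝 (Cst * 0)) := by
    refine Tendsto.const_mul _ (Real.tendsto_exp_atBot.comp ?_)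
    have : Tendsto (fun n => (-(δ0 / 2)) * s n) (𝒰 : Filter ℕ) atBot :=
      hs.const_mul_atTop_of_neg (by linarith)
    exact this
  rw [mul_zero] at hlim
  have hlt : ∀ᶠ n in (𝒰 : Filter ℕ), Cst * Real.exp (-(δ0 / 2) * s n) < 1 :=
    hlim.eventually_lt_const one_pos
  have hfalse : ∀ᶠ n in (𝒰 : Filter ℕ), False := by
    filter_upwards [hne, hg.int, hg.le ε hεpos, hord ε hεpos, hspos, hlt] with n h1 h2 h3 h4 h5 h6
    have hy : c * eval (z n) G ∈ Z.O := by
      rw [eval_eq, Finset.mul_sum]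
      refine Z.O.sum_mem fun m hm => ?_
      rw [← mul_assoc]
      refine Z.O.mul_mem (hc _ (Finset.mem_image_of_mem _ hm)) ?_
      exact Z.O.prod_mem fun i _ => Z.O.pow_mem (h2 i) _
    have hy0 : c * eval (z n) G ≠ 0 := mul_ne_zero hc0 h1
    have hle := Z.one_le _ hy hy0
    have hb1 : ‖algebraMap K Ω (c * eval (z n) G)‖ ^ Z.n ≤
        ‖algebraMap K Ω c‖ ^ Z.n * Real.exp (-(α - ε) * s n) ^ Z.n := by
      rw [← mul_pow]
      refine pow_le_pow_left₀ (norm_nonneg _) ?_ _
      rw [map_mul, norm_mul]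
      exact mul_le_mul_of_nonneg_left h4 (norm_nonneg _)
    have hb2 : ∏ l, Z.abv l (c * eval (z n) G) ≤
        (∏ l, A l) * ∏ l, Real.exp ((g l + ε) * s n) ^ D := by
      rw [← Finset.prod_mul_distrib]
      refine Finset.prod_le_prod (fun l _ => (Z.abv l).nonneg _) fun l _ => ?_
      rw [map_mul, hA]
      simp only
      rw [mul_assoc]
      refine mul_le_mul_of_nonneg_left ?_ ((Z.abv l).nonneg _)
      refine abv_eval_le _ G hD _ ?_ (h3 l)
      refine Real.one_le_exp ?_
      have := hg.pos l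
      positivity
    have hb3 : (1 : ℝ) ≤ Cst * Real.exp (-(δ0 / 2) * s n) := by
      calc (1 : ℝ) ≤ ‖algebraMap K Ω (c * eval (z n) G)‖ ^ Z.n *
            ∏ l, Z.abv l (c * eval (z n) G) := hle
        _ ≤ (‖algebraMap K Ω c‖ ^ Z.n * Real.exp (-(α - ε) * s n) ^ Z.n) *
            ((∏ l, A l) * ∏ l, Real.exp ((g l + ε) * s n) ^ D) := by
            refine mul_le_mul hb1 hb2 (Finset.prod_nonneg fun l _ => (Z.abv l).nonneg _) ?_
            positivity
        _ = Cst * (Real.exp (-(α - ε) * s n) ^ Z.n * ∏ l, Real.exp ((g l + ε) * s n) ^ D) := by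
            rw [hCst]; ring
        _ = Cst * Real.exp (-(δ0 / 2) * s n) := by
            congr 1
            have e1 : ∀ l, Real.exp ((g l + ε) * s n) ^ D = Real.exp (D * ((g l + ε) * s n)) :=
              fun l => (Real.exp_nat_mul _ _).symm
            have e2 : Real.exp (-(α - ε) * s n) ^ Z.n = Real.exp (Z.n * (-(α - ε) * s n)) :=
              (Real.exp_nat_mul _ _).symm
            rw [e2, Finset.prod_congr rfl fun l _ => e1 l, ← Real.exp_sum, ← Real.exp_add]
            congr 1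
            have e3 : ∑ l, (D : ℝ) * ((g l + ε) * s n) =
                D * (∑ l, g l) * s n + D * Fintype.card Λ * ε * s n := by
              have : ∀ l, (D : ℝ) * ((g l + ε) * s n) = D * s n * g l + D * ε * s n := fun l => by
                ring
              rw [Finset.sum_congr rfl fun l _ => this l, Finset.sum_add_distrib,
                ← Finset.mul_sum, Finset.sum_const, Finset.card_univ, nsmul_eq_mul]
              ring
            rw [e3]
            have e4 : (Z.n : ℝ) * (-(α - ε) * s n) + (D * (∑ l, g l) * s n +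
                D * Fintype.card Λ * ε * s n) = (-δ0 + ε * q0) * s n := by
              rw [hδ0, hq0]; ring
            rw [e4, hεq]
            ring
    linarith
  exact (𝒰.neBot).ne (by simpa using hfalse)

end

end Pool.Agent.Helper63.RP
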