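import Pool.Agent.Helper63.RP.Loc
import Pool.Agent.Helper63.RP.Dim

/-!
# The ideals of the shifted orbits are eventually constant
-/

set_option autoImplicit false

namespace Pool.Agent.Helper63.RP

open MvPolynomial Filter Topology
open Pool.Agent.Helper65.RP

section D
variable {K Kb Ω : Type} [Field K] [Field Kb] [Algebra K Kb] [IsAlgClosure K Kb]
  [NormedField Ω] [IsAlgClosed Ω] [Algebra K Ω] [Algebra Kb Ω] [IsScalarTower K Kb Ω] {N : ℕ}
  {𝒰 : Ultrafilter ℕ} {s : ℕ → ℝ} {z : ℕ → Fin N → K} {i₀ : Fin N}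

omit [IsAlgClosed Ω] in
/-- Polynomials in the coordinate `i₀` do not vanish on the sequence. -/
theorem aeval_X_notMem (h : Lev Ω 𝒰 s z i₀) (p : Polynomial K) (hp : p ≠ 0) :
    Polynomial.aeval (X i₀ : MvPolynomial (Fin N) K) p ∉ van 𝒰 z := by
  classical
  intro hmem
  have h1 : ∀ᶠ n in (𝒰 : Filter ℕ),
      eval (z n) (Polynomial.aeval (X i₀ : MvPolynomial (Fin N) K) p) = 0 := hmem
  set B : ℝ := ∑ x ∈ p.roots.toFinset, ‖algebraMap K Ω x‖ with hB
  have hB0 : 0 ≤ B := Finset.sum_nonneg fun _ _ => norm_nonneg _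
  have h2 : ∀ᶠ n in (𝒰 : Filter ℕ), -Real.log ‖algebraMap K Ω (z n i₀)‖ / s n < -1 / 2 :=
    h.top.2.eventually_lt_const (by norm_num)
  have h3 : ∀ᶠ n in (𝒰 : Filter ℕ), 2 * Real.log (B + 1) < s n := h.hs.eventually_gt_atTop _
  have h4 : ∀ᶠ n in (𝒰 : Filter ℕ), False := by
    filter_upwards [h1, h2, h3, h.hs.eventually_gt_atTop 0, h.top.1] with n e1 e2 e3 e4 e5
    have e6 : p.eval (z n i₀) = 0 := by
      rw [← e1, Polynomial.aeval_def, Polynomial.hom_eval₂]
      have : (eval (z n)).comp (algebraMap K (MvPolynomial (Fin N) K)) = RingHom.id K := by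
        ext x
        simp
      rw [this, eval_X]
      rfl
    have e7 : z n i₀ ∈ p.roots.toFinset := by
      rw [Multiset.mem_toFinset, Polynomial.mem_roots hp]
      exact e6
    have e8 : ‖algebraMap K Ω (z n i₀)‖ ≤ B :=
      Finset.single_le_sum (f := fun x => ‖algebraMap K Ω x‖) (fun _ _ => norm_nonneg _) e7
    have e9 : 0 < ‖algebraMap K Ω (z n i₀)‖ := norm_pos_iff.2 e5
    have e10 : Real.log ‖algebraMap K Ω (z n i₀)‖ ≤ Real.log (B + 1) :=
      Real.log_le_log e9 (by linarith)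
    rw [div_lt_iff₀ e4] at e2
    linarith
  exact (𝒰.neBot).ne (by simpa using h4)

omit [IsAlgClosed Ω] in
/-- Bounded degree: the linear map that describes the ideal. -/
theorem exists_map {Λ : Type} [Fintype Λ] (Z : PD K Ω Λ) {g : Λ → ℝ}
    {q : Fin N → Kb} {s : ℕ → ℕ → ℝ}
    {z : ℕ → ℕ → Fin N → K}
    (hlev : ∀ m, Lev Ω 𝒰 (s m) (z m) i₀) (hgrow : ∀ m, Grow Z g 𝒰 (s m) (z m))
    (happ : ∀ M : ℕ, ∃ (γ : Fin N → Polynomial Kb) (m₀ : ℕ),
      (∀ i j, (γ i).coeff j ∈ IntermediateField.adjoin K (Set.range q)) ∧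
      ∀ m, m₀ ≤ m → ∀ i, GeOrd 𝒰 (s m) (fun n => algebraMap K Ω (z m n i) /
        algebraMap K Ω (z m n i₀) -
          algebraMap Kb Ω ((γ i).eval (algebraMap K Kb (z m n i₀))⁻¹)) M) :
    ∃ c : ℝ, ∀ D : ℕ, ∃ (M : ℕ) (ψ : MvPolynomial (Fin N) K →ₗ[K]
        (Fin M → IntermediateField.adjoin K (Set.range q))) (m₀ : ℕ),
      (∀ m, m₀ ≤ m → ∀ G : MvPolynomial (Fin N) K, G.totalDegree ≤ D →
        (G ∈ van 𝒰 (z m) ↔ ψ G = 0)) ∧
      ∀ m, m₀ ≤ m → (rho (van 𝒰 (z m)) D : ℝ) ≤ c * (D * Z.bd g + 1) := by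
  classical
  set K1 := IntermediateField.adjoin K (Set.range q) with hK1
  have hfin : FiniteDimensional K K1 := by
    refine IntermediateField.finiteDimensional_adjoin fun x _ => ?_
    exact (IsAlgClosure.isAlgebraic (R := K) (K := Kb)).isAlgebraic x |>.isIntegral
  have hbd0 : 0 ≤ Z.bd g := by
    have h1 : 0 ≤ ∑ l, g l := Finset.sum_nonneg fun l _ => (hgrow 0).pos l
    have h2 : (0 : ℝ) < Z.n := by exact_mod_cast Z.hn
    unfold PD.bd
    positivity
  refine ⟨Module.finrank K K1, fun D => ?_⟩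
  set M : ℕ := ⌊(D : ℝ) * Z.bd g⌋₊ + 1 with hM
  have hM1 : (D : ℝ) * Z.bd g < M := by
    rw [hM]
    push_cast
    exact Nat.lt_floor_add_one _
  have hM2 : (M : ℝ) ≤ D * Z.bd g + 1 := by
    rw [hM]
    push_cast
    have := Nat.floor_le (mul_nonneg (Nat.cast_nonneg D) hbd0 : (0 : ℝ) ≤ (D : ℝ) * Z.bd g)
    linarith
  obtain ⟨γ, m₀, hγ, happ'⟩ := happ M
  have hlift : ∀ i, ∃ p : Polynomial K1, p.map (algebraMap K1 Kb) = γ i := by
    intro i
    rw [← Polynomial.mem_lifts, Polynomial.lifts_iff_coeff_lifts]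
    intro j
    exact ⟨⟨(γ i).coeff j, hγ i j⟩, rfl⟩
  choose γ1 hγ1 using hlift
  set ψ : MvPolynomial (Fin N) K →ₗ[K] (Fin M → K1) :=
    LinearMap.pi fun j => ((Polynomial.lcoeff K1 (j : ℕ)).restrictScalars K) ∘ₗ pol γ1 D with hψ
  have hψ0 : ∀ G : MvPolynomial (Fin N) K, ψ G = 0 ↔ ∀ j < M, (pol γ D G).coeff j = 0 := by
    intro G
    have h1 : (pol γ1 D G).map (algebraMap K1 Kb) = pol γ D G := by
      rw [pol_map, funext hγ1]
    constructor
    · intro h2 j hj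
      have h3 : (pol γ1 D G).coeff j = 0 := congrFun h2 ⟨j, hj⟩
      rw [← h1, Polynomial.coeff_map, h3, map_zero]
    · intro h2
      funext j
      have h3 := h2 j j.2
      rw [← h1, Polynomial.coeff_map] at h3
      have h4 : (pol γ1 D G).coeff j = 0 :=
        (algebraMap K1 Kb).injective (by rw [h3, map_zero])
      exact h4
  have hiff : ∀ m, m₀ ≤ m → ∀ G : MvPolynomial (Fin N) K, G.totalDegree ≤ D →
      (G ∈ van 𝒰 (z m) ↔ ψ G = 0) := by
    intro m hm G hG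
    rw [hψ0]
    exact mem_van_iff (hlev m) Z (hgrow m) hM1 (happ' m hm) hG
  refine ⟨M, ψ, m₀, hiff, fun m hm => ?_⟩
  have h1 := rho_le_of_ker (van 𝒰 (z m)) D ψ (hiff m hm)
  rw [Module.finrank_pi_fintype, Finset.sum_const, Finset.card_univ, Fintype.card_fin,
    smul_eq_mul] at h1
  have h2 : (rho (van 𝒰 (z m)) D : ℝ) ≤ M * Module.finrank K K1 := by exact_mod_cast h1
  refine h2.trans ?_
  rw [mul_comm]
  exact mul_le_mul_of_nonneg_left hM2 (Nat.cast_nonneg _)

/-- I -/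
theorem final_local {Λ : Type} [Fintype Λ] (Z : PD K Ω Λ) {g : Λ → ℝ} {e : ℕ} (he : 2 ≤ e)
    {F : Fin N → MvPolynomial (Fin N) K} {q : Fin N → Kb} {s : ℕ → ℕ → ℝ}
    {z : ℕ → ℕ → Fin N → K}
    (hs : ∀ m, ∀ᶠ n in (𝒰 : Filter ℕ), s m n = e * s (m + 1) n)
    (hz : ∀ m, ∀ᶠ n in (𝒰 : Filter ℕ), ∀ i, z m n i = eval (z (m + 1) n) (F i))
    (hlev : ∀ m, Lev Ω 𝒰 (s m) (z m) i₀) (hgrow : ∀ m, Grow Z g 𝒰 (s m) (z m))
    (happ : ∀ M : ℕ, ∃ (γ : Fin N → Polynomial Kb) (m₀ : ℕ),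
      (∀ i j, (γ i).coeff j ∈ IntermediateField.adjoin K (Set.range q)) ∧
      ∀ m, m₀ ≤ m → ∀ i, GeOrd 𝒰 (s m) (fun n => algebraMap K Ω (z m n i) /
        algebraMap K Ω (z m n i₀) -
          algebraMap Kb Ω ((γ i).eval (algebraMap K Kb (z m n i₀))⁻¹)) M)
    {P : MvPolynomial (Fin N) K} (hP : P ∈ van 𝒰 (z 0)) : bind₁ F P ∈ van 𝒰 (z 0) := by
  classical
  obtain ⟨c, hc⟩ := exists_map Z hlev hgrow happ
  choose M ψ m₀ hiff hrho using hc
  -- the limit ideal
  let I : Ideal (MvPolynomial (Fin N) K) :=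
    { carrier := {G | ∀ᶠ m in atTop, G ∈ van 𝒰 (z m)}
      add_mem' := by
        intro a b ha hb
        filter_upwards [ha, hb] with m h1 h2
        exact (van 𝒰 (z m)).add_mem h1 h2
      zero_mem' := Eventually.of_forall fun m => (van 𝒰 (z m)).zero_mem
      smul_mem' := by
        intro a b hb
        filter_upwards [hb] with m h1
        exact (van 𝒰 (z m)).mul_mem_left a h1 }
  have hI : ∀ G, G ∈ I ↔ ∀ᶠ m in atTop, G ∈ van 𝒰 (z m) := fun G => Iff.rfl
  have hIψ : ∀ D, ∀ G : MvPolynomial (Fin N) K, G.totalDegree ≤ D → (G ∈ I ↔ ψ D G = 0) := by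
    intro D G hG
    rw [hI]
    constructor
    · intro h
      obtain ⟨m, h1, h2⟩ := (h.and (eventually_ge_atTop (m₀ D))).exists
      exact (hiff D m h2 G hG).1 h1
    · intro h
      filter_upwards [eventually_ge_atTop (m₀ D)] with m hm
      exact (hiff D m hm G hG).2 h
  have hIrho : ∀ D, (rho I D : ℝ) ≤ c * (D * Z.bd g + 1) := by
    intro D
    rw [rho_congr I (van 𝒰 (z (m₀ D))) D fun G hG =>
      (hIψ D G hG).trans (hiff D _ le_rfl G hG).symm]
    exact hrho D _ le_rfl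
  -- all large ideals contain the limit ideal
  have hle : ∀ᶠ m in atTop, I ≤ van 𝒰 (z m) := by
    obtain ⟨S, hS⟩ := (isNoetherianRing_iff_ideal_fg (MvPolynomial (Fin N) K)).1 inferInstance I
    have h1 : ∀ᶠ m in atTop, ∀ G ∈ S, G ∈ van 𝒰 (z m) := by
      rw [Filter.eventually_all_finset]
      intro G hG
      exact (hI G).1 (hS ▸ Ideal.subset_span hG)
    filter_upwards [h1] with m hm
    rw [← hS]
    exact Ideal.span_le.2 hm
  -- and are equal to it
  have heq : ∀ᶠ m in atTop, van 𝒰 (z m) = I := by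
    filter_upwards [hle] with m hm
    by_contra hne
    obtain ⟨F0, hF0, hF0I⟩ : ∃ F0 ∈ van 𝒰 (z m), F0 ∉ I := by
      by_contra hcon
      push Not at hcon
      exact hne (le_antisymm hcon hm)
    have hmul : ∀ G, F0 * G ∈ I → G ∈ I := by
      intro G hG
      rw [hI] at hG hF0I
      have h1 : ∃ᶠ k in atTop, F0 ∉ van 𝒰 (z k) := by
        rw [Filter.not_eventually] at hF0I
        exact hF0I
      obtain ⟨k, ⟨h2, h3⟩, h4⟩ :=
        ((h1.and_eventually hG).and_eventually (eventually_ge_atTop (m₀ G.totalDegree))).exists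
      have h5 : G ∈ van 𝒰 (z k) := by
        have h6 : ∀ᶠ n in (𝒰 : Filter ℕ), eval (z k n) F0 ≠ 0 := by
          rw [Ultrafilter.eventually_not]
          exact h2
        have h7 : ∀ᶠ n in (𝒰 : Filter ℕ), eval (z k n) (F0 * G) = 0 := h3
        show ∀ᶠ n in (𝒰 : Filter ℕ), eval (z k n) G = 0
        filter_upwards [h6, h7] with n h8 h9
        rw [map_mul] at h9
        exact (mul_eq_zero.1 h9).resolve_left h8
      exact (hIψ G.totalDegree G le_rfl).2 ((hiff G.totalDegree k h4 G le_rfl).1 h5)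
    have hdeg : 1 ≤ F0.totalDegree := by
      rw [Nat.one_le_iff_ne_zero]
      intro h0
      have h1 := totalDegree_eq_zero_iff_eq_C.1 h0
      apply hF0I
      have h2 : coeff 0 F0 = 0 := by
        have h3 : ∀ᶠ n in (𝒰 : Filter ℕ), eval (z m n) F0 = 0 := hF0
        obtain ⟨n, hn⟩ := h3.exists
        rw [h1, eval_C] at hn
        exact hn
      rw [h1, h2, C_0]
      exact I.zero_mem
    refine no_growth (fun D => rho I D) hdeg (fun D => ?_) c (Z.bd g) hIrho
    have h1 := rho_add_le I (van 𝒰 (z m)) hm F0 hF0 hmul D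
    have h2 := le_rho (van 𝒰 (z m)) i₀ (aeval_X_notMem (hlev m)) (D + F0.totalDegree)
    omega
  -- iterates
  have hstep : ∀ m (G : MvPolynomial (Fin N) K),
      G ∈ van 𝒰 (z m) ↔ bind₁ F G ∈ van 𝒰 (z (m + 1)) := by
    intro m G
    have h1 : ∀ᶠ n in (𝒰 : Filter ℕ), eval (z (m + 1) n) (bind₁ F G) = eval (z m n) G := by
      filter_upwards [hz m] with n hn
      have h2 : z m n = fun i => eval (z (m + 1) n) (F i) := funext hn
      rw [h2]
      exact eval₂Hom_bind₁ _ _ _ _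
    constructor
    · intro h
      have h' : ∀ᶠ n in (𝒰 : Filter ℕ), eval (z m n) G = 0 := h
      show ∀ᶠ n in (𝒰 : Filter ℕ), eval (z (m + 1) n) (bind₁ F G) = 0
      filter_upwards [h1, h'] with n h2 h3
      rw [h2, h3]
    · intro h
      have h' : ∀ᶠ n in (𝒰 : Filter ℕ), eval (z (m + 1) n) (bind₁ F G) = 0 := h
      show ∀ᶠ n in (𝒰 : Filter ℕ), eval (z m n) G = 0
      filter_upwards [h1, h'] with n h2 h3
      rw [← h2, h3]
  have hiter : ∀ m (G : MvPolynomial (Fin N) K),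
      G ∈ van 𝒰 (z 0) ↔ (fun G => bind₁ F G)^[m] G ∈ van 𝒰 (z m) := by
    intro m
    induction m with
    | zero => intro G; exact Iff.rfl
    | succ m ih =>
      intro G
      rw [ih G, Function.iterate_succ_apply', hstep m]
  obtain ⟨m, hm⟩ := (Filter.eventually_atTop.1 heq)
  have e1 := hm m le_rfl
  have e2 := hm (m + 1) (Nat.le_succ _)
  rw [hiter m, e1, ← e2, ← Function.iterate_succ_apply (fun G => bind₁ F G) m P]
  exact (hiter (m + 1) P).1 hP

end D

end Pool.Agent.Helper63.RP
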