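import Pool.Agent.Helper65.RP.Defs

/-!
# Orders of sequences
-/

set_option autoImplicit false

namespace Pool.Agent.Helper63.RP

open Filter Topology
open Pool.Agent.Helper65.RP

section
variable {Ω : Type} [NormedField Ω] {𝒰 : Ultrafilter ℕ} {s : ℕ → ℝ} {u v : ℕ → Ω} {α β : ℝ}

theorem geOrd_mono (hs : Tendsto s (𝒰 : Filter ℕ) atTop) (h : GeOrd 𝒰 s u α) (hβ : β ≤ α) :
    GeOrd 𝒰 s u β := by
  intro ε hε
  filter_upwards [h ε hε, hs.eventually_gt_atTop 0] with n h1 h2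
  refine h1.trans (Real.exp_le_exp.2 ?_)
  nlinarith

theorem geOrd_congr (h : GeOrd 𝒰 s u α) (huv : ∀ᶠ n in (𝒰 : Filter ℕ), u n = v n) :
    GeOrd 𝒰 s v α := by
  intro ε hε
  filter_upwards [h ε hε, huv] with n h1 h2
  rwa [← h2]

theorem geOrd_add (hs : Tendsto s (𝒰 : Filter ℕ) atTop) (hu : GeOrd 𝒰 s u α)
    (hv : GeOrd 𝒰 s v α) : GeOrd 𝒰 s (fun n => u n + v n) α := by
  intro ε hε
  have h2 : ∀ᶠ n in (𝒰 : Filter ℕ), Real.log 2 / (ε / 2) < s n := hs.eventually_gt_atTop _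
  filter_upwards [hu (ε / 2) (by linarith), hv (ε / 2) (by linarith), h2] with n h1 h2 h3
  have h4 : Real.log 2 ≤ (ε / 2) * s n := by
    rw [div_lt_iff₀ (by linarith)] at h3
    linarith
  have h5 : (2 : ℝ) ≤ Real.exp ((ε / 2) * s n) := by
    calc (2 : ℝ) = Real.exp (Real.log 2) := (Real.exp_log (by norm_num)).symm
      _ ≤ _ := Real.exp_le_exp.2 h4
  calc ‖u n + v n‖ ≤ ‖u n‖ + ‖v n‖ := norm_add_le _ _
    _ ≤ 2 * Real.exp (-(α - ε / 2) * s n) := by linarith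
    _ ≤ Real.exp ((ε / 2) * s n) * Real.exp (-(α - ε / 2) * s n) :=
        mul_le_mul_of_nonneg_right h5 (Real.exp_nonneg _)
    _ = Real.exp (-(α - ε) * s n) := by
        rw [← Real.exp_add]
        congr 1
        ring

theorem geOrd_zero : GeOrd 𝒰 s (fun _ => (0 : Ω)) α := by
  intro ε hε
  refine Eventually.of_forall fun n => ?_
  rw [norm_zero]
  exact Real.exp_nonneg _

theorem geOrd_sum {ι : Type} (hs : Tendsto s (𝒰 : Filter ℕ) atTop) (T : Finset ι)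
    (w : ι → ℕ → Ω) (h : ∀ i ∈ T, GeOrd 𝒰 s (w i) α) :
    GeOrd 𝒰 s (fun n => ∑ i ∈ T, w i n) α := by
  classical
  induction T using Finset.induction_on with
  | empty => simpa using geOrd_zero
  | insert a T ha ih =>
    have h1 : (fun n => ∑ i ∈ insert a T, w i n) = fun n => w a n + ∑ i ∈ T, w i n := by
      funext n
      rw [Finset.sum_insert ha]
    rw [h1]
    exact geOrd_add hs (h a (Finset.mem_insert_self _ _))
      (ih fun i hi => h i (Finset.mem_insert_of_mem hi))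

theorem geOrd_mul (hu : GeOrd 𝒰 s u α) (hv : GeOrd 𝒰 s v β) :
    GeOrd 𝒰 s (fun n => u n * v n) (α + β) := by
  intro ε hε
  filter_upwards [hu (ε / 2) (by linarith), hv (ε / 2) (by linarith)] with n h1 h2
  rw [norm_mul]
  calc ‖u n‖ * ‖v n‖ ≤ Real.exp (-(α - ε / 2) * s n) * Real.exp (-(β - ε / 2) * s n) :=
        mul_le_mul h1 h2 (norm_nonneg _) (Real.exp_nonneg _)
    _ = Real.exp (-(α + β - ε) * s n) := by
        rw [← Real.exp_add]
        congr 1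
        ring

/-- A sequence with a finite limit has order at least `0`. -/
theorem geOrd_of_tendsto (hs : Tendsto s (𝒰 : Filter ℕ) atTop) {c : Ω}
    (h : Tendsto u (𝒰 : Filter ℕ) (𝓝 c)) : GeOrd 𝒰 s u 0 := by
  intro ε hε
  have h1 : ∀ᶠ n in (𝒰 : Filter ℕ), ‖u n‖ < ‖c‖ + 1 :=
    h.norm.eventually_lt_const (by linarith)
  have h2 : ∀ᶠ n in (𝒰 : Filter ℕ), Real.log (‖c‖ + 1) / ε < s n := hs.eventually_gt_atTop _
  filter_upwards [h1, h2] with n h3 h4
  have hc : 0 < ‖c‖ + 1 := by positivity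
  have h5 : Real.log (‖c‖ + 1) ≤ -(0 - ε) * s n := by
    rw [div_lt_iff₀ hε] at h4
    linarith
  calc ‖u n‖ ≤ ‖c‖ + 1 := h3.le
    _ = Real.exp (Real.log (‖c‖ + 1)) := (Real.exp_log hc).symm
    _ ≤ _ := Real.exp_le_exp.2 h5

theorem geOrd_const (hs : Tendsto s (𝒰 : Filter ℕ) atTop) (c : Ω) :
    GeOrd 𝒰 s (fun _ => c) 0 := geOrd_of_tendsto hs tendsto_const_nhds

theorem hasOrd_geOrd (hs : Tendsto s (𝒰 : Filter ℕ) atTop) (h : HasOrd 𝒰 s u α) :
    GeOrd 𝒰 s u α := by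
  intro ε hε
  have h1 : ∀ᶠ n in (𝒰 : Filter ℕ), α - ε < -Real.log ‖u n‖ / s n :=
    h.2.eventually_const_lt (by linarith)
  filter_upwards [h.1, h1, hs.eventually_gt_atTop 0] with n h2 h3 h4
  have h5 : 0 < ‖u n‖ := norm_pos_iff.2 h2
  rw [lt_div_iff₀ h4] at h3
  calc ‖u n‖ = Real.exp (Real.log ‖u n‖) := (Real.exp_log h5).symm
    _ ≤ _ := Real.exp_le_exp.2 (by linarith)

theorem hasOrd_congr (h : HasOrd 𝒰 s u α) (huv : ∀ᶠ n in (𝒰 : Filter ℕ), u n = v n) :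
    HasOrd 𝒰 s v α := by
  refine ⟨?_, ?_⟩
  · filter_upwards [h.1, huv] with n h1 h2
    rwa [← h2]
  · refine h.2.congr' ?_
    filter_upwards [huv] with n h2
    rw [h2]

theorem hasOrd_inv (h : HasOrd 𝒰 s u α) : HasOrd 𝒰 s (fun n => (u n)⁻¹) (-α) := by
  refine ⟨?_, ?_⟩
  · filter_upwards [h.1] with n h1
    exact inv_ne_zero h1
  · refine h.2.neg.congr fun n => ?_
    rw [norm_inv, Real.log_inv]
    ring

theorem hasOrd_mul (hu : HasOrd 𝒰 s u α) (hv : HasOrd 𝒰 s v β) :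
    HasOrd 𝒰 s (fun n => u n * v n) (α + β) := by
  refine ⟨?_, ?_⟩
  · filter_upwards [hu.1, hv.1] with n h1 h2
    exact mul_ne_zero h1 h2
  · refine (hu.2.add hv.2).congr' ?_
    filter_upwards [hu.1, hv.1] with n h1 h2
    rw [norm_mul, Real.log_mul (norm_ne_zero_iff.2 h1) (norm_ne_zero_iff.2 h2)]
    ring

theorem hasOrd_pow (hu : HasOrd 𝒰 s u α) (k : ℕ) :
    HasOrd 𝒰 s (fun n => u n ^ k) (k * α) := by
  refine ⟨?_, ?_⟩
  · filter_upwards [hu.1] with n h1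
    exact pow_ne_zero _ h1
  · refine (hu.2.const_mul (k : ℝ)).congr fun n => ?_
    rw [norm_pow, Real.log_pow]
    ring

/-- A sequence with a finite nonzero limit has order `0`. -/
theorem hasOrd_of_tendsto (hs : Tendsto s (𝒰 : Filter ℕ) atTop) {c : Ω} (hc : c ≠ 0)
    (h : Tendsto u (𝒰 : Filter ℕ) (𝓝 c)) : HasOrd 𝒰 s u 0 := by
  refine ⟨h.eventually_ne hc, ?_⟩
  have h1 : Tendsto (fun n => -Real.log ‖u n‖) (𝒰 : Filter ℕ) (𝓝 (-Real.log ‖c‖)) :=
    ((Real.continuousAt_log (norm_ne_zero_iff.2 hc)).tendsto.comp h.norm).neg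
  exact h1.div_atTop hs

/-- A sequence of order `α` plus one of larger order is almost everywhere nonzero. -/
theorem add_ne_zero_of_ord (hs : Tendsto s (𝒰 : Filter ℕ) atTop) (hu : HasOrd 𝒰 s u α)
    (hv : GeOrd 𝒰 s v β) (hαβ : α < β) : ∀ᶠ n in (𝒰 : Filter ℕ), u n + v n ≠ 0 := by
  have h1 : ∀ᶠ n in (𝒰 : Filter ℕ), -Real.log ‖u n‖ / s n < (α + β) / 2 :=
    hu.2.eventually_lt_const (by linarith)
  filter_upwards [hu.1, h1, hv ((β - α) / 2) (by linarith), hs.eventually_gt_atTop 0]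
    with n h2 h3 h4 h5 h6
  have h7 : ‖u n‖ = ‖v n‖ := by
    have : u n = -v n := eq_neg_of_add_eq_zero_left h6
    rw [this, norm_neg]
  have h8 : 0 < ‖u n‖ := norm_pos_iff.2 h2
  rw [div_lt_iff₀ h5] at h3
  have h9 : Real.log ‖u n‖ ≤ -(β - (β - α) / 2) * s n := by
    rw [Real.log_le_iff_le_exp h8, h7]
    exact h4
  nlinarith

/-- A sequence of positive order tends to `0`. -/
theorem tendsto_zero_of_geOrd (hs : Tendsto s (𝒰 : Filter ℕ) atTop) (hu : GeOrd 𝒰 s u α)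
    (hα : 0 < α) : Tendsto u (𝒰 : Filter ℕ) (𝓝 0) := by
  rw [tendsto_zero_iff_norm_tendsto_zero]
  have h1 : Tendsto (fun n => Real.exp (-(α - α / 2) * s n)) (𝒰 : Filter ℕ) (𝓝 0) := by
    refine Real.tendsto_exp_atBot.comp ?_
    exact hs.const_mul_atTop_of_neg (by linarith)
  refine tendsto_of_tendsto_of_tendsto_of_le_of_le' tendsto_const_nhds h1
    (Eventually.of_forall fun n => norm_nonneg _) (hu (α / 2) (by linarith))

/-- The values of a polynomial at a sequence of order `1`. -/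
theorem hasOrd_poly (hs : Tendsto s (𝒰 : Filter ℕ) atTop) (hu : HasOrd 𝒰 s u 1)
    (p : Polynomial Ω) (j : ℕ) (hj : ∀ i < j, p.coeff i = 0) (hj0 : p.coeff j ≠ 0) :
    HasOrd 𝒰 s (fun n => p.eval (u n)) j := by
  obtain ⟨r, hr⟩ := Polynomial.X_pow_dvd_iff.2 hj
  have hr0 : r.coeff 0 ≠ 0 := by
    rw [hr] at hj0
    simpa [Polynomial.coeff_X_pow_mul'] using hj0
  have hu0 : Tendsto u (𝒰 : Filter ℕ) (𝓝 0) :=
    tendsto_zero_of_geOrd hs (hasOrd_geOrd hs hu) one_pos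
  have h1 : Tendsto (fun n => r.eval (u n)) (𝒰 : Filter ℕ) (𝓝 (r.eval 0)) :=
    (r.continuous.tendsto 0).comp hu0
  have h2 : HasOrd 𝒰 s (fun n => r.eval (u n)) 0 := by
    refine hasOrd_of_tendsto hs ?_ h1
    rwa [← Polynomial.coeff_zero_eq_eval_zero]
  have h3 := hasOrd_mul (hasOrd_pow hu j) h2
  rw [mul_one, add_zero] at h3
  refine hasOrd_congr h3 (Eventually.of_forall fun n => ?_)
  rw [hr]
  simp

/-- The values of a polynomial divisible by `X ^ j` at a sequence of order `1`. -/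
theorem geOrd_poly (hs : Tendsto s (𝒰 : Filter ℕ) atTop) (hu : HasOrd 𝒰 s u 1)
    (p : Polynomial Ω) (j : ℕ) (hj : ∀ i < j, p.coeff i = 0) :
    GeOrd 𝒰 s (fun n => p.eval (u n)) j := by
  obtain ⟨r, hr⟩ := Polynomial.X_pow_dvd_iff.2 hj
  have hu0 : Tendsto u (𝒰 : Filter ℕ) (𝓝 0) :=
    tendsto_zero_of_geOrd hs (hasOrd_geOrd hs hu) one_pos
  have h1 : Tendsto (fun n => r.eval (u n)) (𝒰 : Filter ℕ) (𝓝 (r.eval 0)) :=
    (r.continuous.tendsto 0).comp hu0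
  have h3 := geOrd_mul (hasOrd_geOrd hs (hasOrd_pow hu j)) (geOrd_of_tendsto hs h1)
  rw [mul_one, add_zero] at h3
  refine geOrd_congr h3 (Eventually.of_forall fun n => ?_)
  rw [hr]
  simp

end

end Pool.Agent.Helper63.RP
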