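import Pool.Agent.Helper63.RP.Liou
import Pool.Agent.Helper63.RP.OrdB

/-!
# The polynomials that vanish on the sequence, in bounded degree
-/

set_option autoImplicit false

namespace Pool.Agent.Helper63.RP

open MvPolynomial Filter Topology
open Pool.Agent.Helper65.RP

section pol
variable {K L : Type} [Field K] [Field L] [Algebra K L] {N : ℕ}

/-- The polynomial `t ^ D * G (γ (t) / t)`. -/
noncomputable def pol (γ : Fin N → Polynomial L) (D : ℕ) :
    MvPolynomial (Fin N) K →ₗ[K] Polynomial L :=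
  (basisMonomials (Fin N) K).constr K fun m =>
    Polynomial.X ^ (D - ∑ i, m i) * ∏ i, γ i ^ m i

theorem pol_monomial (γ : Fin N → Polynomial L) (D : ℕ) (m : Fin N →₀ ℕ) (a : K) :
    pol (K := K) γ D (monomial m a) =
      a • (Polynomial.X ^ (D - ∑ i, m i) * ∏ i, γ i ^ m i) := by
  have h1 : (monomial m a : MvPolynomial (Fin N) K) = a • basisMonomials (Fin N) K m := by
    rw [coe_basisMonomials, smul_monomial, smul_eq_mul, mul_one]
  rw [h1, map_smul, pol, Module.Basis.constr_basis]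

theorem pol_apply (γ : Fin N → Polynomial L) (D : ℕ) (G : MvPolynomial (Fin N) K) :
    pol γ D G = ∑ m ∈ G.support,
      coeff m G • (Polynomial.X ^ (D - ∑ i, m i) * ∏ i, γ i ^ m i) := by
  conv_lhs => rw [← support_sum_monomial_coeff G]
  rw [map_sum]
  exact Finset.sum_congr rfl fun m _ => pol_monomial γ D m _

theorem pol_map {E : Type} [Field E] [Algebra K E] [Algebra L E] [IsScalarTower K L E]
    (γ : Fin N → Polynomial L) (D : ℕ) (G : MvPolynomial (Fin N) K) :
    (pol γ D G).map (algebraMap L E) = pol (fun i => (γ i).map (algebraMap L E)) D G := by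
  rw [pol_apply, pol_apply, Polynomial.map_sum]
  refine Finset.sum_congr rfl fun m _ => ?_
  rw [Algebra.smul_def, Algebra.smul_def, Polynomial.map_mul, Polynomial.map_mul,
    Polynomial.map_pow, Polynomial.map_X, Polynomial.map_prod]
  congr 1
  · rw [IsScalarTower.algebraMap_apply K L (Polynomial L), Polynomial.algebraMap_apply,
      Algebra.algebraMap_self_apply, Polynomial.map_C,
      IsScalarTower.algebraMap_apply K E (Polynomial E), Polynomial.algebraMap_apply,
      Algebra.algebraMap_self_apply, ← IsScalarTower.algebraMap_apply]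
  · congr 1
    refine Finset.prod_congr rfl fun i _ => ?_
    rw [Polynomial.map_pow]

theorem pol_eval (γ : Fin N → Polynomial L) (D : ℕ) (G : MvPolynomial (Fin N) K) (t : L) :
    (pol γ D G).eval t = ∑ m ∈ G.support,
      algebraMap K L (coeff m G) * (t ^ (D - ∑ i, m i) * ∏ i, (γ i).eval t ^ m i) := by
  rw [pol_apply, Polynomial.eval_finsetSum]
  refine Finset.sum_congr rfl fun m _ => ?_
  rw [Algebra.smul_def, Polynomial.eval_mul, IsScalarTower.algebraMap_apply K L (Polynomial L),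
    Polynomial.algebraMap_apply, Algebra.algebraMap_self_apply, Polynomial.eval_C,
    Polynomial.eval_mul, Polynomial.eval_pow, Polynomial.eval_X, Polynomial.eval_prod]
  congr 2
  exact Finset.prod_congr rfl fun i _ => Polynomial.eval_pow _

end pol

section close
variable {Ω : Type} [NormedField Ω] {𝒰 : Ultrafilter ℕ} {s : ℕ → ℝ} {M : ℝ}

/-- Two bounded sequences which are close to each other. -/
def Cl (𝒰 : Ultrafilter ℕ) (s : ℕ → ℝ) (M : ℝ) (u v : ℕ → Ω) : Prop :=
  GeOrd 𝒰 s u 0 ∧ GeOrd 𝒰 s v 0 ∧ GeOrd 𝒰 s (fun n => u n - v n) M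

theorem Cl.mul (hs : Tendsto s (𝒰 : Filter ℕ) atTop) {a b c d : ℕ → Ω} (h1 : Cl 𝒰 s M a b)
    (h2 : Cl 𝒰 s M c d) : Cl 𝒰 s M (fun n => a n * c n) fun n => b n * d n := by
  refine ⟨?_, ?_, ?_⟩
  · simpa using geOrd_mul h1.1 h2.1
  · simpa using geOrd_mul h1.2.1 h2.2.1
  · have e1 := geOrd_mul h1.1 h2.2.2
    have e2 := geOrd_mul h1.2.2 h2.2.1
    rw [zero_add] at e1
    rw [add_zero] at e2
    refine geOrd_congr (geOrd_add hs e1 e2) (Eventually.of_forall fun n => ?_)
    ring

theorem Cl.one (hs : Tendsto s (𝒰 : Filter ℕ) atTop) :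
    Cl 𝒰 s M (fun _ => (1 : Ω)) fun _ => 1 := by
  refine ⟨geOrd_const hs 1, geOrd_const hs 1, ?_⟩
  simpa using geOrd_zero

theorem Cl.pow (hs : Tendsto s (𝒰 : Filter ℕ) atTop) {a b : ℕ → Ω} (h1 : Cl 𝒰 s M a b) (k : ℕ) :
    Cl 𝒰 s M (fun n => a n ^ k) fun n => b n ^ k := by
  induction k with
  | zero => simpa using Cl.one hs
  | succ k ih => simpa only [pow_succ] using Cl.mul hs ih h1

theorem Cl.prod {ι : Type} (hs : Tendsto s (𝒰 : Filter ℕ) atTop) (T : Finset ι) (a b : ι → ℕ → Ω)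
    (h : ∀ i, Cl 𝒰 s M (a i) (b i)) :
    Cl 𝒰 s M (fun n => ∏ i ∈ T, a i n) fun n => ∏ i ∈ T, b i n := by
  classical
  induction T using Finset.induction_on with
  | empty => simpa using Cl.one hs
  | insert i T hi ih => simpa only [Finset.prod_insert hi] using Cl.mul hs (h i) ih

end close

section
variable {K Kb Ω : Type} [Field K] [Field Kb] [Algebra K Kb]
  [NormedField Ω] [Algebra K Ω] [Algebra Kb Ω] [IsScalarTower K Kb Ω] {N : ℕ}
  {𝒰 : Ultrafilter ℕ} {s : ℕ → ℝ} {z : ℕ → Fin N → K} {i₀ : Fin N}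

theorem hasOrd_t (h : Lev Ω 𝒰 s z i₀) :
    HasOrd 𝒰 s (fun n => (algebraMap K Ω (z n i₀))⁻¹) 1 := by
  simpa using hasOrd_inv h.top

theorem inv_tower (x : K) :
    (algebraMap K Ω x)⁻¹ = algebraMap Kb Ω (algebraMap K Kb x)⁻¹ := by
  rw [map_inv₀, ← IsScalarTower.algebraMap_apply K Kb Ω]

theorem eval_tower (p : Polynomial Kb) (x : K) :
    (p.map (algebraMap Kb Ω)).eval (algebraMap K Ω x)⁻¹ =
      algebraMap Kb Ω (p.eval (algebraMap K Kb x)⁻¹) := by
  rw [inv_tower (Kb := Kb), Polynomial.eval_map, Polynomial.eval₂_at_apply]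

theorem close_eval (h : Lev Ω 𝒰 s z i₀) {M D : ℕ} {γ : Fin N → Polynomial Kb}
    (hγ : ∀ i, GeOrd 𝒰 s (fun n => algebraMap K Ω (z n i) / algebraMap K Ω (z n i₀) -
      algebraMap Kb Ω ((γ i).eval (algebraMap K Kb (z n i₀))⁻¹)) M)
    {G : MvPolynomial (Fin N) K} (hG : G.totalDegree ≤ D) :
    GeOrd 𝒰 s (fun n => (algebraMap K Ω (z n i₀))⁻¹ ^ D * algebraMap K Ω (eval (z n) G) -
      algebraMap Kb Ω ((pol γ D G).eval (algebraMap K Kb (z n i₀))⁻¹)) M := by
  have hs := h.hs
  have ht := hasOrd_t h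
  have hcl : ∀ i, Cl 𝒰 s (M : ℝ) (fun n => algebraMap K Ω (z n i) / algebraMap K Ω (z n i₀))
      fun n => algebraMap Kb Ω ((γ i).eval (algebraMap K Kb (z n i₀))⁻¹) := by
    intro i
    refine ⟨?_, ?_, hγ i⟩
    · have h1 := geOrd_mul (h.ge i) (hasOrd_geOrd hs ht)
      rw [neg_add_cancel] at h1
      exact geOrd_congr h1 (Eventually.of_forall fun n => (div_eq_mul_inv _ _).symm)
    · have h1 := geOrd_poly hs ht ((γ i).map (algebraMap Kb Ω)) 0 (by simp)
      rw [Nat.cast_zero] at h1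
      exact geOrd_congr h1 (Eventually.of_forall fun n => eval_tower _ _)
  have hterm : ∀ m ∈ G.support, GeOrd 𝒰 s (fun n => algebraMap K Ω (coeff m G) *
      ((algebraMap K Ω (z n i₀))⁻¹ ^ (D - ∑ i, m i) *
        ((∏ i, (algebraMap K Ω (z n i) / algebraMap K Ω (z n i₀)) ^ m i) -
          ∏ i, (algebraMap Kb Ω ((γ i).eval (algebraMap K Kb (z n i₀))⁻¹)) ^ m i))) M := by
    intro m _
    have e1 := (Cl.prod hs Finset.univ _ _ fun i => Cl.pow hs (hcl i) (m i)).2.2
    have e2 := geOrd_mono hs (hasOrd_geOrd hs (hasOrd_pow ht (D - ∑ i, m i)))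
      (show (0 : ℝ) ≤ ((D - ∑ i, m i : ℕ) : ℝ) * 1 by positivity)
    have e3 := geOrd_mul (geOrd_const hs (algebraMap K Ω (coeff m G))) (geOrd_mul e2 e1)
    rw [zero_add, zero_add] at e3
    exact e3
  refine geOrd_congr (geOrd_sum hs G.support _ hterm) (Eventually.of_forall fun n => ?_)
  rw [pol_eval, eval_eq, map_sum, map_sum, Finset.mul_sum, ← Finset.sum_sub_distrib]
  refine Finset.sum_congr rfl fun m hm => ?_
  have hdeg : ∑ i, m i ≤ D := by
    refine le_trans ?_ hG
    have := le_totalDegree hm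
    rwa [Finsupp.sum_fintype _ _ fun _ => rfl] at this
  have hprod : algebraMap K Ω (∏ i ∈ m.support, z n i ^ m i) =
      ∏ i, algebraMap K Ω (z n i) ^ m i := by
    rw [map_prod]
    refine (Finset.prod_subset (Finset.subset_univ _) fun i _ hi => ?_).trans
      (Finset.prod_congr rfl fun i _ => map_pow _ _ _)
    rw [Finsupp.notMem_support_iff.1 hi, pow_zero, map_one]
  have ht1 : (algebraMap K Ω (z n i₀))⁻¹ ^ D =
      (algebraMap K Ω (z n i₀))⁻¹ ^ (D - ∑ i, m i) *
        ∏ i, (algebraMap K Ω (z n i₀))⁻¹ ^ m i := by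
    rw [Finset.prod_pow_eq_pow_sum, ← pow_add, Nat.sub_add_cancel hdeg]
  rw [map_mul, hprod, ht1, map_mul, map_mul, ← IsScalarTower.algebraMap_apply K Kb Ω, map_pow,
    ← inv_tower, map_prod, mul_sub, mul_sub]
  congr 1
  · have : ∏ i, (algebraMap K Ω (z n i) / algebraMap K Ω (z n i₀)) ^ m i =
        (∏ i, (algebraMap K Ω (z n i₀))⁻¹ ^ m i) * ∏ i, algebraMap K Ω (z n i) ^ m i := by
      rw [← Finset.prod_mul_distrib]
      refine Finset.prod_congr rfl fun i _ => ?_
      rw [div_eq_mul_inv, mul_pow, mul_comm]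
    rw [this]
    ring
  · congr 2
    exact Finset.prod_congr rfl fun i _ => (map_pow _ _ _).symm

/-- (2) In degree at most `D` membership in the ideal only depends on the approximation. -/
theorem mem_van_iff (h : Lev Ω 𝒰 s z i₀) {Λ : Type} [Fintype Λ] (Z : PD K Ω Λ) {g : Λ → ℝ}
    (hg : Grow Z g 𝒰 s z) {M D : ℕ} (hM : D * Z.bd g < M) {γ : Fin N → Polynomial Kb}
    (hγ : ∀ i, GeOrd 𝒰 s (fun n => algebraMap K Ω (z n i) / algebraMap K Ω (z n i₀) -
      algebraMap Kb Ω ((γ i).eval (algebraMap K Kb (z n i₀))⁻¹)) M)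
    {G : MvPolynomial (Fin N) K} (hG : G.totalDegree ≤ D) :
    G ∈ van 𝒰 z ↔ ∀ j < M, (pol γ D G).coeff j = 0 := by
  classical
  have hs := h.hs
  have ht := hasOrd_t h
  have hcl := close_eval h hγ hG
  set p := pol γ D G with hp
  constructor
  · intro hGv
    by_contra hcon
    push Not at hcon
    have hex : ∃ j, p.coeff j ≠ 0 := by
      obtain ⟨j, _, hj⟩ := hcon
      exact ⟨j, hj⟩
    have hjM : Nat.find hex < M := by
      obtain ⟨j, hj1, hj2⟩ := hcon
      exact lt_of_le_of_lt (Nat.find_le hj2) hj1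
    have h1 : HasOrd 𝒰 s (fun n => algebraMap Kb Ω (p.eval (algebraMap K Kb (z n i₀))⁻¹))
        (Nat.find hex) := by
      refine hasOrd_congr (hasOrd_poly hs ht (p.map (algebraMap Kb Ω)) (Nat.find hex) ?_ ?_)
        (Eventually.of_forall fun n => eval_tower _ _)
      · intro i hi
        have := Nat.find_min hex hi
        push Not at this
        rw [Polynomial.coeff_map, this, map_zero]
      · rw [Polynomial.coeff_map]
        exact (map_ne_zero _).2 (Nat.find_spec hex)
    have h2 := add_ne_zero_of_ord hs h1 hcl (by exact_mod_cast hjM)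
    have h3 : ∀ᶠ n in (𝒰 : Filter ℕ), eval (z n) G = 0 := hGv
    have h4 : ∀ᶠ n in (𝒰 : Filter ℕ), False := by
      filter_upwards [h2, h3] with n h5 h6
      apply h5
      rw [h6, map_zero, mul_zero]
      ring
    exact (𝒰.neBot).ne (by simpa using h4)
  · intro hj
    have h1 : GeOrd 𝒰 s (fun n => algebraMap Kb Ω (p.eval (algebraMap K Kb (z n i₀))⁻¹)) M := by
      refine geOrd_congr (geOrd_poly hs ht (p.map (algebraMap Kb Ω)) M ?_)
        (Eventually.of_forall fun n => eval_tower _ _)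
      intro i hi
      rw [Polynomial.coeff_map, hj i hi, map_zero]
    have h2 := geOrd_add hs h1 hcl
    have h3 := geOrd_mul (hasOrd_geOrd hs (hasOrd_pow h.top D)) h2
    have h4 : GeOrd 𝒰 s (fun n => algebraMap K Ω (eval (z n) G)) ((D : ℝ) * -1 + M) := by
      refine geOrd_congr h3 ?_
      filter_upwards [h.top.1] with n hn
      have : algebraMap K Ω (z n i₀) ^ D * (algebraMap K Ω (z n i₀))⁻¹ ^ D = 1 := by
        rw [← mul_pow, mul_inv_cancel₀ hn, one_pow]
      calc _ = (algebraMap K Ω (z n i₀) ^ D * (algebraMap K Ω (z n i₀))⁻¹ ^ D) *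
            algebraMap K Ω (eval (z n) G) := by ring
        _ = _ := by rw [this, one_mul]
    refine liouville Z hs hg hG ?_ h4
    have hbd : Z.bd g = 1 + (∑ l, g l) / Z.n := rfl
    rw [hbd] at hM
    linarith

end

end Pool.Agent.Helper63.RP
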